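import Mathlib
import Pool.Agent.H472.Q2.Final

/-!
# MP_dafbe7_nt, Q2: the conjectured asymptotic formula for hybrid moments is false

`Sel` (library module `Pool.Graph.R_seed8.H13R3.EM.Defs`) is an element of the Selberg class with all its data,
`Sel.deg` its degree, `Sel.err` its error term `E_f(x)`. There are two entire elements of integer degrees `d₁ < d₂`,
both with a second moment asymptotic (with a power saving), whose mixed moment `∫_1^T E₁² E₂²` is not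
`O(T^(1+σ+ε₀))` for some `ε₀ > 0`, where `σ = ∑ ℓ_j (d_j - 1) / (2 d_j)`, `ℓ_j = 2`.
-/

set_option autoImplicit false

namespace Pool.Agent.Results.MP_dafbe7_nt.HybridMomentsQ2

open Pool.Agent.H13R3.EM

/-- `F` (of degree `d`) has an `ℓ`-th moment asymptotic with the constant `C ≠ 0`:
`∫_1^T E_f^ℓ = C T^(1 + ℓ(d-1)/(2d)) + O(T^(1 + ℓ(d-1)/(2d) - δ + ε))`. -/
def Moment (F : Sel) (d ℓ : ℕ) (C : ℂ) : Prop :=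
  C ≠ 0 ∧ ∃ δ : ℝ, 0 < δ ∧ ∀ ε : ℝ, 0 < ε → ∃ K : ℝ, ∀ T : ℝ, 1 ≤ T →
    ‖(∫ x in (1:ℝ)..T, F.err x ^ ℓ) - C * ((T ^ (1 + (ℓ : ℝ) * ((d : ℝ) - 1) / (2 * d)) : ℝ) : ℂ)‖ ≤
      K * T ^ (1 + (ℓ : ℝ) * ((d : ℝ) - 1) / (2 * d) - δ + ε)

/-- the exponent `σ = ∑ ℓ_j (d_j - 1) / (2 d_j)` -/
noncomputable def sigma {k : ℕ} (d ℓ : Fin k → ℕ) : ℝ := ∑ j, (ℓ j : ℝ) * ((d j : ℝ) - 1) / (2 * (d j : ℝ))

/-- Q2 of the problem: for all `k ≥ 2`, degrees `2 ≤ d₁ < … < d_k` and exponents `ℓ_j ≥ 2` there is a constant `C₀`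
such that for all `f_j` with `ℓ_j`-th moment asymptotics with constants `C_j`,
`∫_1^T ∏ E_{f_j}^{ℓ_j} = C₀ ∏ C_j T^(1+σ) + O(T^(1+σ-δ₂+ε))` with `C₀ ∏ C_j ≠ 0` and some `δ₂ > 0`. -/
def Q2 : Prop := ∀ (k : ℕ) (d ℓ : Fin k → ℕ), 2 ≤ k → StrictMono d → (∀ j, 2 ≤ d j) → (∀ j, 2 ≤ ℓ j) →
  ∃ C₀ : ℂ, ∀ (F : Fin k → Sel) (C : Fin k → ℂ), (∀ j, (F j).deg = (d j : ℝ)) →
    (∀ j, Moment (F j) (d j) (ℓ j) (C j)) →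
    C₀ * ∏ j, C j ≠ 0 ∧ ∃ δ : ℝ, 0 < δ ∧ ∀ ε : ℝ, 0 < ε → ∃ K : ℝ, ∀ T : ℝ, 1 ≤ T →
      ‖(∫ x in (1:ℝ)..T, ∏ j, (F j).err x ^ ℓ j) - C₀ * (∏ j, C j) * ((T ^ (1 + sigma d ℓ) : ℝ) : ℂ)‖ ≤
        K * T ^ (1 + sigma d ℓ - δ + ε)

/-- Q2 is false; moreover there are two entire elements of the Selberg class of integer degrees `2 ≤ d₁ < d₂`, both with
a second moment asymptotic, such that `∫_1^T E₁² E₂²` is not even `O(T^(1+σ+ε₀))`, for some `ε₀ > 0`. -/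
theorem result : ¬ Q2 ∧
    ∃ (F : Fin 2 → Sel) (d : Fin 2 → ℕ) (C : Fin 2 → ℂ), StrictMono d ∧ (∀ j, 2 ≤ d j) ∧ (∀ j, (F j).deg = (d j : ℝ)) ∧
      (∀ j, (F j).m0 = 0) ∧ (∀ j, Moment (F j) (d j) 2 (C j)) ∧
      ∃ ε₀ : ℝ, 0 < ε₀ ∧ ∀ K : ℝ, ∃ T : ℝ, 1 ≤ T ∧
        K * T ^ (1 + sigma d (fun _ => 2) + ε₀) < ‖∫ x in (1:ℝ)..T, ∏ j, (F j).err x ^ 2‖ := by
  have hsp := Pool.Agent.H472.Q2.spikes (fun _ => 1) 1 1 one_pos (fun _ => zero_le_one)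
    (fun T _ => intervalIntegrable_const) one_ne_zero ⟨1, fun T hT => by simp⟩
  obtain ⟨F, d, hd, hd2, hdeg, hm0, hmom, ⟨ε₀, hε₀, hbig⟩, hno⟩ := Pool.Agent.H472.Q2.no_main_term hsp
  have hex : ∀ j, ∃ C : ℂ, Moment (F j) (d j) 2 C := fun j => by
    obtain ⟨C, hC0, hC⟩ := hmom j
    exact ⟨C, hC0, hC⟩
  choose C hC using hex
  refine ⟨fun hQ => ?_, F, d, C, hd, hd2, hdeg, hm0, hC, ε₀, hε₀, fun K => ?_⟩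
  · obtain ⟨C₀, h⟩ := hQ 2 d (fun _ => 2) le_rfl hd hd2 (fun _ => le_rfl)
    obtain ⟨-, δ, hδ, hε⟩ := h F C hdeg hC
    refine hno (Polynomial.C (C₀ * ∏ j, C j)) ⟨δ, hδ, fun ε hε' => ?_⟩
    obtain ⟨K, hK⟩ := hε ε hε'
    refine ⟨K, fun T hT => ?_⟩
    have h1 := hK T hT
    have e1 : ∀ x : ℝ, (∏ j, (F j).err x ^ 2) * (((fun _ => 1 : ℝ → ℝ) x : ℝ) : ℂ) = ∏ j, (F j).err x ^ 2 := by
      intro x; simp
    simp_rw [e1]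
    rw [Polynomial.eval_C, mul_comm (((T ^ (1 + Pool.Agent.H472.Q2.sigQ d (fun _ => 2)) : ℝ)) : ℂ)]
    exact h1
  · obtain ⟨T, hT, hTK⟩ := hbig K
    refine ⟨T, hT, ?_⟩
    have e1 : ∀ x : ℝ, (∏ j, (F j).err x ^ 2) * (((fun _ => 1 : ℝ → ℝ) x : ℝ) : ℂ) = ∏ j, (F j).err x ^ 2 := by
      intro x; simp
    simp_rw [e1] at hTK
    exact hTK

end Pool.Agent.Results.MP_dafbe7_nt.HybridMomentsQ2
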